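import Pool.Agent.W890.SF.Stm

set_option autoImplicit false

open Finset

namespace Pool.Agent.W405.SAM.XCL

open Pool.Agent.W890.SF

variable {V : Type} [Fintype V] [DecidableEq V]

theorem count (k : ℕ) (hk : 1 ≤ k) (H : Finset (Finset V)) (hH : Unif k H)
    (A B : Finset V) (v : V) :
    dg H v + (tys k 0 A B v).card + (tys k 1 A B v).card ≤
      (Fintype.card V - 1).choose (k - 1) + (ty k 0 H A B v).card + (ty k 1 H A B v).card := by
  set P : Finset (Finset V) := ((univ : Finset V).erase v).powersetCard (k - 1) with hP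
  set L : Finset (Finset V) := P.filter (fun S => insert v S ∈ H) with hL
  have h1 : dg H v ≤ L.card := by
    apply Finset.card_le_card_of_injOn (fun e => e.erase v)
    · intro e he
      rw [Finset.mem_coe, Finset.mem_filter] at he
      simp only [hL, hP, Finset.coe_filter, Set.mem_setOf_eq, Finset.mem_powersetCard]
      refine ⟨⟨Finset.erase_subset_erase _ (Finset.subset_univ _), ?_⟩, ?_⟩
      · rw [Finset.card_erase_of_mem he.2, hH e he.1]
      · rw [Finset.insert_erase he.2]; exact he.1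
    · intro e he e' he' h
      rw [Finset.mem_coe, Finset.mem_filter] at he he'
      have h' : e.erase v = e'.erase v := h
      rw [← Finset.insert_erase he.2, ← Finset.insert_erase he'.2, h']
  have hPc : P.card = (Fintype.card V - 1).choose (k - 1) := by
    rw [hP, Finset.card_powersetCard, Finset.card_erase_of_mem (Finset.mem_univ v),
      Finset.card_univ]
  set T : Finset (Finset V) := tys k 0 A B v ∪ tys k 1 A B v with hT
  have hTc : T.card = (tys k 0 A B v).card + (tys k 1 A B v).card := by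
    rw [hT, Finset.card_union_of_disjoint]
    rw [Finset.disjoint_left]
    intro S h0 h1
    unfold tys at h0 h1
    rw [Finset.mem_filter] at h0 h1
    have := h0.2.symm.trans h1.2
    omega
  have hsub : ∀ j, tys k j A B v ⊆ P := by
    intro j S hS
    unfold tys at hS
    rw [Finset.mem_filter, Finset.mem_powersetCard] at hS
    rw [hP, Finset.mem_powersetCard]
    exact ⟨hS.1.1.trans (Finset.erase_subset_erase _ (Finset.subset_univ _)), hS.1.2⟩
  have h2 : L ∪ T ⊆ P := by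
    apply Finset.union_subset (Finset.filter_subset _ _)
    exact Finset.union_subset (hsub 0) (hsub 1)
  have h3 : L ∩ T ⊆ ty k 0 H A B v ∪ ty k 1 H A B v := by
    intro S hS
    rw [Finset.mem_inter, hL, Finset.mem_filter, hT, Finset.mem_union] at hS
    rw [Finset.mem_union]
    unfold ty
    rw [Finset.mem_filter, Finset.mem_filter]
    rcases hS.2 with h | h
    · exact Or.inl ⟨h, hS.1.2⟩
    · exact Or.inr ⟨h, hS.1.2⟩
  have h4 := Finset.card_union_add_card_inter L T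
  have h5 := Finset.card_le_card h2
  have h6 := (Finset.card_le_card h3).trans (Finset.card_union_le _ _)
  omega

theorem low0 (k : ℕ) (A B : Finset V) (hAB : Disjoint A B) (v : V) :
    (B.card - 1).choose (k - 1) ≤ (tys k 0 A B v).card := by
  have h : (B.erase v).powersetCard (k - 1) ⊆ tys k 0 A B v := by
    intro S hS
    rw [Finset.mem_powersetCard] at hS
    unfold tys
    rw [Finset.mem_filter, Finset.mem_powersetCard]
    refine ⟨⟨hS.1.trans (Finset.erase_subset_erase _ Finset.subset_union_right), hS.2⟩, ?_⟩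
    rw [Finset.card_eq_zero, ← Finset.disjoint_iff_inter_eq_empty]
    exact (hAB.symm.mono_left (hS.1.trans (Finset.erase_subset _ _)))
  refine le_trans ?_ (Finset.card_le_card h)
  rw [Finset.card_powersetCard]
  exact Nat.choose_le_choose _ Finset.pred_card_le_card_erase

theorem low1 (k : ℕ) (hk : 2 ≤ k) (A B : Finset V) (hAB : Disjoint A B) (v : V) :
    (A.card - 1) * (B.card - 1).choose (k - 2) ≤ (tys k 1 A B v).card := by
  have h : ((A.erase v) ×ˢ ((B.erase v).powersetCard (k - 2))).card ≤ (tys k 1 A B v).card := by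
    apply Finset.card_le_card_of_injOn (fun p => insert p.1 p.2)
    · rintro ⟨a, S⟩ hp
      rw [Finset.mem_coe, Finset.mem_product, Finset.mem_powersetCard] at hp
      obtain ⟨ha, hS, hc⟩ := hp
      simp only at ha hS hc
      have haA := Finset.mem_of_mem_erase ha
      have haS : a ∉ S := fun h => (Finset.disjoint_left.1 hAB haA)
        (Finset.mem_of_mem_erase (hS h))
      have hSA : S ∩ A = ∅ := by
        rw [← Finset.disjoint_iff_inter_eq_empty]
        exact hAB.symm.mono_left (hS.trans (Finset.erase_subset _ _))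
      simp only [tys, Finset.coe_filter, Set.mem_setOf_eq, Finset.mem_powersetCard]
      refine ⟨⟨?_, ?_⟩, ?_⟩
      · intro x hx
        rw [Finset.mem_insert] at hx
        rcases hx with rfl | hx
        · exact Finset.erase_subset_erase _ Finset.subset_union_left ha
        · exact Finset.erase_subset_erase _ Finset.subset_union_right (hS hx)
      · rw [Finset.card_insert_of_notMem haS, hc]; omega
      · rw [Finset.insert_inter_of_mem haA, hSA]; simp
    · rintro ⟨a, S⟩ hp ⟨a', S'⟩ hp' h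
      rw [Finset.mem_coe, Finset.mem_product, Finset.mem_powersetCard] at hp hp'
      obtain ⟨ha, hS, hc⟩ := hp
      obtain ⟨ha', hS', hc'⟩ := hp'
      simp only at ha hS hc ha' hS' hc' h
      have haA := Finset.mem_of_mem_erase ha
      have haA' := Finset.mem_of_mem_erase ha'
      have hSA : ∀ x ∈ S, x ∉ A := fun x hx hxA => (Finset.disjoint_left.1 hAB hxA)
        (Finset.mem_of_mem_erase (hS hx))
      have hSA' : ∀ x ∈ S', x ∉ A := fun x hx hxA => (Finset.disjoint_left.1 hAB hxA)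
        (Finset.mem_of_mem_erase (hS' hx))
      have haa : a = a' := by
        have : a ∈ insert a' S' := by rw [← h]; exact Finset.mem_insert_self _ _
        rw [Finset.mem_insert] at this
        rcases this with h1 | h1
        · exact h1
        · exact absurd haA (hSA' a h1)
      subst haa
      have : S = S' := by
        have h1 : (insert a S).erase a = (insert a S').erase a := by rw [h]
        rwa [Finset.erase_insert (fun h => hSA a h haA),
          Finset.erase_insert (fun h => hSA' a h haA)] at h1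
      rw [this]
  refine le_trans ?_ h
  rw [Finset.card_product, Finset.card_powersetCard]
  exact Nat.mul_le_mul Finset.pred_card_le_card_erase
    (Nat.choose_le_choose _ Finset.pred_card_le_card_erase)

/-- choice of `δ` -/
theorem choose_delta (k : ℕ) (hk : 3 ≤ k) : ∃ δ : ℝ, 0 < δ ∧ 0 ≤ 1 - 1 / (k : ℝ) - 3 * δ ∧
    0 ≤ 1 / (k : ℝ) - 2 * δ ∧
    (1 - 1 / (k : ℝ)) ^ (k - 1) / 2 ≤ (1 - 1 / (k : ℝ) - 3 * δ) ^ (k - 1) +
      ((k : ℝ) - 1) * (1 / (k : ℝ) - 2 * δ) * (1 - 1 / (k : ℝ) - 3 * δ) ^ (k - 2) -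
      (1 - 1 / (k : ℝ)) ^ (k - 1) - δ := by
  have hk0 : (0 : ℝ) < k := by positivity
  have hk3 : (3 : ℝ) ≤ k := by exact_mod_cast hk
  have h1k : 1 / (k : ℝ) ≤ 1 / 3 := by
    apply one_div_le_one_div_of_le <;> linarith
  have h0k : 0 < 1 / (k : ℝ) := by positivity
  have hc : 0 < (1 - 1 / (k : ℝ)) ^ (k - 1) := by
    apply pow_pos; linarith
  let f : ℝ → ℝ := fun δ => (1 - 1 / (k : ℝ) - 3 * δ) ^ (k - 1) +
      ((k : ℝ) - 1) * (1 / (k : ℝ) - 2 * δ) * (1 - 1 / (k : ℝ) - 3 * δ) ^ (k - 2) -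
      (1 - 1 / (k : ℝ)) ^ (k - 1) - δ
  have hf : Continuous f := by
    simp only [f]; fun_prop
  have hf0 : f 0 = (1 - 1 / (k : ℝ)) ^ (k - 1) := by
    simp only [f]
    obtain ⟨m, rfl⟩ : ∃ m, k = m + 2 := ⟨k - 2, by omega⟩
    simp only [Nat.add_sub_cancel, show m + 2 - 1 = m + 1 by omega, mul_zero, sub_zero]
    push_cast
    have : ((m : ℝ) + 2) ≠ 0 := by positivity
    have e : ((m : ℝ) + 2 - 1) * (1 / ((m : ℝ) + 2)) = 1 - 1 / ((m : ℝ) + 2) := by
      field_simp
    rw [e, pow_succ]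
    ring
  have e1 : ∀ᶠ δ in nhdsWithin (0 : ℝ) (Set.Ioi 0), (1 - 1 / (k : ℝ)) ^ (k - 1) / 2 < f δ := by
    have : Filter.Tendsto f (nhds 0) (nhds (f 0)) := hf.tendsto 0
    have h := this.eventually (lt_mem_nhds (a := (1 - 1 / (k : ℝ)) ^ (k - 1) / 2) (by
      rw [hf0]; linarith))
    exact h.filter_mono nhdsWithin_le_nhds
  have e2 : ∀ᶠ δ in nhdsWithin (0 : ℝ) (Set.Ioi 0), δ < 1 / (2 * (k : ℝ)) := by
    have : ∀ᶠ δ in nhds (0 : ℝ), δ < 1 / (2 * (k : ℝ)) := by
      apply Iio_mem_nhds; positivity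
    exact this.filter_mono nhdsWithin_le_nhds
  have e4 : ∀ᶠ δ in nhdsWithin (0 : ℝ) (Set.Ioi 0), δ < 2 / 9 := by
    have : ∀ᶠ δ in nhds (0 : ℝ), δ < 2 / 9 := by
      apply Iio_mem_nhds; norm_num
    exact this.filter_mono nhdsWithin_le_nhds
  have e3 : ∀ᶠ δ in nhdsWithin (0 : ℝ) (Set.Ioi 0), δ ∈ Set.Ioi (0 : ℝ) := self_mem_nhdsWithin
  obtain ⟨δ, ⟨⟨h1, h2⟩, h3⟩, h4⟩ := (((e1.and e2).and e3).and e4).exists
  refine ⟨δ, h3, ?_, ?_, h1.le⟩
  · linarith
  · have : 1 / (2 * (k : ℝ)) = (1 / (k : ℝ)) / 2 := by field_simp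
    rw [this] at h2
    linarith

theorem xcl : S_XCL := by
  intro k hk
  obtain ⟨δ, hδ, hd1, hd2, hd3⟩ := choose_delta k hk
  have hk3 : (3 : ℝ) ≤ k := by exact_mod_cast hk
  have h1k : 1 / (k : ℝ) ≤ 1 / 3 := by
    apply one_div_le_one_div_of_le <;> linarith
  have hc : 0 < (1 - 1 / (k : ℝ)) ^ (k - 1) := by
    apply pow_pos; linarith
  set c := (1 - 1 / (k : ℝ)) ^ (k - 1) with hcdef
  have hfac : (0 : ℝ) < ((k - 1).factorial : ℝ) := by exact_mod_cast Nat.factorial_pos _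
  refine ⟨c / (4 * ((k - 1).factorial : ℝ)), δ, by positivity, hδ, ⌈(k : ℝ) / δ⌉₊ + 1, ?_⟩
  intro V _ _ hN H hH hdeg A B X hT v
  set N : ℕ := Fintype.card V with hNdef
  have hNk : (k : ℝ) ≤ δ * N := by
    have h1 : (k : ℝ) / δ ≤ N := by
      have h2 : (⌈(k : ℝ) / δ⌉₊ : ℝ) + 1 ≤ N := by exact_mod_cast hN
      have h3 := Nat.le_ceil ((k : ℝ) / δ)
      linarith
    rw [div_le_iff₀ hδ] at h1
    linarith
  have hN0 : (0 : ℝ) ≤ N := Nat.cast_nonneg _
  -- sizes
  have hcard : N ≤ A.card + B.card + X.card := by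
    have h := congrArg Finset.card hT.cov
    rw [Finset.card_univ] at h
    have h1 := Finset.card_union_le (A ∪ B) X
    have h2 := Finset.card_union_le A B
    omega
  have hcardR : (N : ℝ) ≤ A.card + B.card + X.card := by exact_mod_cast hcard
  have ha1 := hT.a1
  have ha2 := hT.a2
  have hxs := hT.xs
  have hBl : (1 - 1 / (k : ℝ) - 2 * δ) * N ≤ (B.card : ℝ) := by
    have : (1 - 1 / (k : ℝ) - 2 * δ) * N = N - (1 / (k : ℝ) + δ) * N - δ * N := by ring
    rw [this]
    linarith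
  have hsub : ∀ m j : ℕ, (m : ℝ) - j ≤ ((m - j : ℕ) : ℝ) := by
    intro m j
    rcases le_total j m with h | h
    · rw [Nat.cast_sub h]
    · rw [Nat.sub_eq_zero_of_le h]
      have : (m : ℝ) ≤ j := by exact_mod_cast h
      simp; linarith
  have hB3 : ∀ j : ℕ, j ≤ k → (1 - 1 / (k : ℝ) - 3 * δ) * N ≤ ((B.card - 1 + 1 - j : ℕ) : ℝ) := by
    intro j hj
    have h1 : (B.card - j : ℕ) ≤ B.card - 1 + 1 - j := by omega
    have h2 : ((B.card - j : ℕ) : ℝ) ≤ ((B.card - 1 + 1 - j : ℕ) : ℝ) := by exact_mod_cast h1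
    have h3 := hsub B.card j
    have h4 : (j : ℝ) ≤ k := by exact_mod_cast hj
    have : (1 - 1 / (k : ℝ) - 3 * δ) * N = (1 - 1 / (k : ℝ) - 2 * δ) * N - δ * N := by ring
    rw [this]
    linarith
  have hA3 : (1 / (k : ℝ) - 2 * δ) * N ≤ ((A.card - 1 : ℕ) : ℝ) := by
    have h3 := hsub A.card 1
    push_cast at h3
    have : (1 / (k : ℝ) - 2 * δ) * N = (1 / (k : ℝ) - δ) * N - δ * N := by ring
    rw [this]
    linarith
  have hbase : 0 ≤ (1 - 1 / (k : ℝ) - 3 * δ) * N := mul_nonneg hd1 hN0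
  -- lower bounds
  have hL0 : ((1 - 1 / (k : ℝ) - 3 * δ) * N) ^ (k - 1) ≤
      ((k - 1).factorial : ℝ) * ((tys k 0 A B v).card : ℝ) := by
    have h1 : ((B.card - 1 + 1 - (k - 1) : ℕ) : ℝ) ^ (k - 1) ≤
        ((k - 1).factorial : ℝ) * ((B.card - 1).choose (k - 1) : ℝ) := by
      have := Nat.pow_sub_le_descFactorial (B.card - 1) (k - 1)
      rw [Nat.descFactorial_eq_factorial_mul_choose] at this
      exact_mod_cast this
    have h2 : (((B.card - 1).choose (k - 1) : ℕ) : ℝ) ≤ ((tys k 0 A B v).card : ℝ) := by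
      exact_mod_cast low0 k A B hT.dAB v
    calc ((1 - 1 / (k : ℝ) - 3 * δ) * N) ^ (k - 1)
        ≤ ((B.card - 1 + 1 - (k - 1) : ℕ) : ℝ) ^ (k - 1) :=
          pow_le_pow_left₀ hbase (hB3 (k - 1) (by omega)) _
      _ ≤ _ := h1
      _ ≤ _ := mul_le_mul_of_nonneg_left h2 hfac.le
  have hL1 : ((k : ℝ) - 1) * ((1 / (k : ℝ) - 2 * δ) * N) * ((1 - 1 / (k : ℝ) - 3 * δ) * N) ^ (k - 2) ≤
      ((k - 1).factorial : ℝ) * ((tys k 1 A B v).card : ℝ) := by
    have h1 : ((B.card - 1 + 1 - (k - 2) : ℕ) : ℝ) ^ (k - 2) ≤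
        ((k - 2).factorial : ℝ) * ((B.card - 1).choose (k - 2) : ℝ) := by
      have := Nat.pow_sub_le_descFactorial (B.card - 1) (k - 2)
      rw [Nat.descFactorial_eq_factorial_mul_choose] at this
      exact_mod_cast this
    have h2 : ((A.card - 1 : ℕ) : ℝ) * (((B.card - 1).choose (k - 2) : ℕ) : ℝ) ≤
        ((tys k 1 A B v).card : ℝ) := by
      exact_mod_cast low1 k (by omega) A B hT.dAB v
    have hf : ((k - 1).factorial : ℝ) = ((k : ℝ) - 1) * ((k - 2).factorial : ℝ) := by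
      obtain ⟨m, rfl⟩ : ∃ m, k = m + 2 := ⟨k - 2, by omega⟩
      simp only [Nat.add_sub_cancel, show m + 2 - 1 = m + 1 by omega, Nat.factorial_succ]
      push_cast
      ring
    have h3 : ((1 - 1 / (k : ℝ) - 3 * δ) * N) ^ (k - 2) ≤
        ((k - 2).factorial : ℝ) * ((B.card - 1).choose (k - 2) : ℝ) :=
      (pow_le_pow_left₀ hbase (hB3 (k - 2) (by omega)) _).trans h1
    have h4 : ((1 / (k : ℝ) - 2 * δ) * N) * ((1 - 1 / (k : ℝ) - 3 * δ) * N) ^ (k - 2) ≤
        ((k - 2).factorial : ℝ) * ((tys k 1 A B v).card : ℝ) := by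
      calc ((1 / (k : ℝ) - 2 * δ) * N) * ((1 - 1 / (k : ℝ) - 3 * δ) * N) ^ (k - 2)
          ≤ ((A.card - 1 : ℕ) : ℝ) * (((k - 2).factorial : ℝ) * ((B.card - 1).choose (k - 2) : ℝ)) :=
            mul_le_mul hA3 h3 (pow_nonneg hbase _) (Nat.cast_nonneg _)
        _ = ((k - 2).factorial : ℝ) * (((A.card - 1 : ℕ) : ℝ) * ((B.card - 1).choose (k - 2) : ℝ)) := by
            ring
        _ ≤ _ := mul_le_mul_of_nonneg_left h2 (Nat.cast_nonneg _)
    have h5 : (0 : ℝ) ≤ (k : ℝ) - 1 := by linarith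
    calc ((k : ℝ) - 1) * ((1 / (k : ℝ) - 2 * δ) * N) * ((1 - 1 / (k : ℝ) - 3 * δ) * N) ^ (k - 2)
        = ((k : ℝ) - 1) * (((1 / (k : ℝ) - 2 * δ) * N) * ((1 - 1 / (k : ℝ) - 3 * δ) * N) ^ (k - 2)) := by
          ring
      _ ≤ ((k : ℝ) - 1) * (((k - 2).factorial : ℝ) * ((tys k 1 A B v).card : ℝ)) :=
          mul_le_mul_of_nonneg_left h4 h5
      _ = ((k - 1).factorial : ℝ) * ((tys k 1 A B v).card : ℝ) := by rw [hf]; ring
  -- upper bound for the binomial
  have hU : ((k - 1).factorial : ℝ) * ((N - 1).choose (k - 1) : ℝ) ≤ (N : ℝ) ^ (k - 1) := by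
    have h1 : (k - 1).factorial * (N - 1).choose (k - 1) ≤ (N - 1) ^ (k - 1) := by
      rw [← Nat.descFactorial_eq_factorial_mul_choose]
      exact Nat.descFactorial_le_pow _ _
    have h2 : (k - 1).factorial * (N - 1).choose (k - 1) ≤ N ^ (k - 1) :=
      h1.trans (Nat.pow_le_pow_left (Nat.sub_le _ _) _)
    exact_mod_cast h2
  have hcount := count k (by omega) H hH A B v
  have hcountR : (dg H v : ℝ) + (tys k 0 A B v).card + (tys k 1 A B v).card ≤
      ((N - 1).choose (k - 1) : ℝ) + (ty k 0 H A B v).card + (ty k 1 H A B v).card := by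
    exact_mod_cast hcount
  have hdv := hdeg v
  rw [← hNdef, ← hcdef] at hdv
  -- combine
  have hmain : (c / 2) * (N : ℝ) ^ (k - 1) ≤
      ((k - 1).factorial : ℝ) * ((ty k 0 H A B v).card + (ty k 1 H A B v).card : ℝ) := by
    have h1 : ((k - 1).factorial : ℝ) * ((tys k 0 A B v).card + (tys k 1 A B v).card
        - (c + δ) * ((N - 1).choose (k - 1) : ℝ)) ≤
        ((k - 1).factorial : ℝ) * ((ty k 0 H A B v).card + (ty k 1 H A B v).card : ℝ) := by
      apply mul_le_mul_of_nonneg_left _ hfac.le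
      have : (1 - c - δ) * (((N - 1).choose (k - 1) : ℕ) : ℝ) =
        ((N - 1).choose (k - 1) : ℝ) - (c + δ) * ((N - 1).choose (k - 1) : ℝ) := by ring
      rw [this] at hdv
      linarith
    refine le_trans ?_ h1
    have h2 : (c + δ) * (((k - 1).factorial : ℝ) * ((N - 1).choose (k - 1) : ℝ)) ≤
        (c + δ) * (N : ℝ) ^ (k - 1) := mul_le_mul_of_nonneg_left hU (by linarith)
    have h3 : ((1 - 1 / (k : ℝ) - 3 * δ) * N) ^ (k - 1) =
        (1 - 1 / (k : ℝ) - 3 * δ) ^ (k - 1) * (N : ℝ) ^ (k - 1) := mul_pow _ _ _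
    have h4 : ((k : ℝ) - 1) * ((1 / (k : ℝ) - 2 * δ) * N) * ((1 - 1 / (k : ℝ) - 3 * δ) * N) ^ (k - 2) =
        ((k : ℝ) - 1) * (1 / (k : ℝ) - 2 * δ) * (1 - 1 / (k : ℝ) - 3 * δ) ^ (k - 2) *
          (N : ℝ) ^ (k - 1) := by
      obtain ⟨m, rfl⟩ : ∃ m, k = m + 2 := ⟨k - 2, by omega⟩
      simp only [Nat.add_sub_cancel, show m + 2 - 1 = m + 1 by omega]
      rw [mul_pow, pow_succ (N : ℝ) m]
      ring
    rw [h3] at hL0
    rw [h4] at hL1
    have h5 : (c / 2) * (N : ℝ) ^ (k - 1) ≤ ((1 - 1 / (k : ℝ) - 3 * δ) ^ (k - 1) +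
      ((k : ℝ) - 1) * (1 / (k : ℝ) - 2 * δ) * (1 - 1 / (k : ℝ) - 3 * δ) ^ (k - 2) -
      c - δ) * (N : ℝ) ^ (k - 1) := mul_le_mul_of_nonneg_right hd3 (pow_nonneg hN0 _)
    nlinarith [h2, hL0, hL1, h5]
  by_contra hcon
  push Not at hcon
  obtain ⟨g1, g2⟩ := hcon
  have e1 : c / (4 * ((k - 1).factorial : ℝ)) * (N : ℝ) ^ (k - 1) +
      c / (4 * ((k - 1).factorial : ℝ)) * (N : ℝ) ^ (k - 1) =
      (c / 2) * (N : ℝ) ^ (k - 1) / ((k - 1).factorial : ℝ) := by
    field_simp; ring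
  have e2 : (c / 2) * (N : ℝ) ^ (k - 1) / ((k - 1).factorial : ℝ) ≤
      (ty k 0 H A B v).card + (ty k 1 H A B v).card := by
    rw [div_le_iff₀ hfac]
    linarith
  linarith

end Pool.Agent.W405.SAM.XCL
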